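import Mathlib
import Pool.Agent.W69.MH.Defs

set_option autoImplicit false
set_option linter.unusedVariables false

namespace Pool.Agent.W930.MH

open Pool.Agent.W69.MH

lemma hasMod_of {ι : Type} [Fintype ι] [DecidableEq ι] {N : ℕ} (hN : Fintype.card ι = N) {m : ℤ}
    (H : Matrix ι ι ℤ) (h1 : ∀ i j, H i j = 1 ∨ H i j = -1)
    (h2 : ∀ i j, i ≠ j → m ∣ ∑ k, H i k * H j k) : HasMod m N := by
  subst hN
  let e := Fintype.equivFin ι
  refine ⟨fun i j => H (e.symm i) (e.symm j), fun i j => h1 _ _, ?_⟩
  intro i j hij
  have h3 := h2 (e.symm i) (e.symm j) (fun h => hij (e.symm.injective h))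
  rw [← Equiv.sum_comp e.symm] at h3
  exact h3

lemma expand {n : ℕ} (C : Matrix (Fin n) (Fin n) ℤ) (i j : Fin n) (hij : i ≠ j) (a b : ℤ) :
    ∑ k, (C i k + if i = k then a else 0) * (C j k + if j = k then b else 0) =
      (∑ k, C i k * C j k) + b * C i j + a * C j i := by
  have h1 : ∀ k, (C i k + if i = k then a else 0) * (C j k + if j = k then b else 0) =
      C i k * C j k + (if j = k then b * C i k else 0) + (if i = k then a * C j k else 0) := by
    intro k
    by_cases h2 : i = k
    · subst h2
      rw [if_pos rfl, if_neg (Ne.symm hij), if_neg (Ne.symm hij), if_pos rfl]; ring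
    · by_cases h3 : j = k
      · subst h3
        rw [if_neg h2, if_pos rfl, if_pos rfl, if_neg h2]; ring
      · rw [if_neg h2, if_neg h3, if_neg h3, if_neg h2]; ring
  rw [Finset.sum_congr rfl fun k _ => h1 k, Finset.sum_add_distrib, Finset.sum_add_distrib,
    Finset.sum_ite_eq, Finset.sum_ite_eq, if_pos (Finset.mem_univ _), if_pos (Finset.mem_univ _)]

lemma expand_same {n : ℕ} (C : Matrix (Fin n) (Fin n) ℤ) (hd : ∀ i, C i i = 0) (i : Fin n)
    (a b : ℤ) :
    ∑ k, (C i k + if i = k then a else 0) * (C i k + if i = k then b else 0) =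
      (∑ k, C i k * C i k) + a * b := by
  have h1 : ∀ k, (C i k + if i = k then a else 0) * (C i k + if i = k then b else 0) =
      C i k * C i k + (if i = k then a * b else 0) := by
    intro k
    by_cases h2 : i = k
    · subst h2
      rw [if_pos rfl, if_pos rfl, if_pos rfl, hd]; ring
    · rw [if_neg h2, if_neg h2, if_neg h2]; ring
  rw [Finset.sum_congr rfl fun k _ => h1 k, Finset.sum_add_distrib, Finset.sum_ite_eq,
    if_pos (Finset.mem_univ _)]

lemma ent {n : ℕ} {ε m : ℤ} {C : Matrix (Fin n) (Fin n) ℤ} (hC : IsConf ε m C) (i j : Fin n)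
    (a : ℤ) (ha : a = 1 ∨ a = -1) :
    C i j + (if i = j then a else 0) = 1 ∨ C i j + (if i = j then a else 0) = -1 := by
  by_cases h : i = j
  · subst h
    rw [if_pos rfl, hC.diag, zero_add]; exact ha
  · rw [if_neg h, add_zero]; exact hC.off i j h

theorem had : St_HAD := by
  refine ⟨?_, ?_, ?_⟩
  · rintro m n ⟨C, hC⟩
    refine ⟨fun i j => C i j + if i = j then 1 else 0, fun i j => ent hC i j 1 (Or.inl rfl), ?_⟩
    intro i j hij
    have h1 : ∑ k, (C i k + if i = k then 1 else 0) * (C j k + if j = k then 1 else 0) =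
        ∑ k, C i k * C j k := by
      rw [expand C i j hij, hC.sym i j]; ring
    rw [h1]
    exact hC.orth i j hij
  · rintro m n ⟨C, hC⟩
    have hcard : Fintype.card (Fin n ⊕ Fin n) = 2 * n := by
      rw [Fintype.card_sum, Fintype.card_fin]; ring
    let D : ℤ → Fin n → Fin n → ℤ := fun a i j => C i j + if i = j then a else 0
    have hD : ∀ a i j, D a i j = C i j + if i = j then a else 0 := fun _ _ _ => rfl
    let H : Matrix (Fin n ⊕ Fin n) (Fin n ⊕ Fin n) ℤ := fun x y =>
      match x, y with
      | .inl i, .inl j => D 1 i j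
      | .inl i, .inr j => D (-1) i j
      | .inr i, .inl j => D (-1) i j
      | .inr i, .inr j => - D 1 i j
    have hmix : ∀ i j, ∑ k, D 1 i k * D (-1) j k + ∑ k, D (-1) i k * (- D 1 j k) = 0 := by
      intro i j
      have e1 : ∑ k, D (-1) i k * (- D 1 j k) = - ∑ k, D (-1) i k * D 1 j k := by
        rw [← Finset.sum_neg_distrib]
        exact Finset.sum_congr rfl fun k _ => by ring
      rw [e1]
      by_cases hij : i = j
      · subst hij
        simp only [hD]
        rw [expand_same C hC.diag, expand_same C hC.diag]; ring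
      · simp only [hD]
        rw [expand C i j hij, expand C i j hij, hC.sym i j]; ring
    refine hasMod_of hcard H ?_ ?_
    · rintro (i | i) (j | j)
      · exact ent hC i j 1 (Or.inl rfl)
      · exact ent hC i j (-1) (Or.inr rfl)
      · exact ent hC i j (-1) (Or.inr rfl)
      · change - D 1 i j = 1 ∨ - D 1 i j = -1
        rcases ent hC i j 1 (Or.inl rfl) with h | h
        · right; rw [hD, h]
        · left; rw [hD, h]; norm_num
    · rintro (i | i) (j | j) hij
      · have hij' : i ≠ j := fun h => hij (by rw [h])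
        rw [Fintype.sum_sum_type]
        change 2 * m ∣ ∑ k, D 1 i k * D 1 j k + ∑ k, D (-1) i k * D (-1) j k
        simp only [hD]
        rw [expand C i j hij', expand C i j hij']
        obtain ⟨c, hc⟩ := hC.orth i j hij'
        exact ⟨c, by rw [hc]; ring⟩
      · rw [Fintype.sum_sum_type]
        change 2 * m ∣ ∑ k, D 1 i k * D (-1) j k + ∑ k, D (-1) i k * (- D 1 j k)
        rw [hmix]
        exact dvd_zero _
      · rw [Fintype.sum_sum_type]
        change 2 * m ∣ ∑ k, D (-1) i k * D 1 j k + ∑ k, (- D 1 i k) * D (-1) j k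
        have e1 : ∑ k, D (-1) i k * D 1 j k + ∑ k, (- D 1 i k) * D (-1) j k =
            ∑ k, D 1 j k * D (-1) i k + ∑ k, D (-1) j k * (- D 1 i k) := by
          congr 1 <;> exact Finset.sum_congr rfl fun k _ => by ring
        rw [e1, hmix]
        exact dvd_zero _
      · have hij' : i ≠ j := fun h => hij (by rw [h])
        rw [Fintype.sum_sum_type]
        change 2 * m ∣ ∑ k, D (-1) i k * D (-1) j k + ∑ k, (- D 1 i k) * (- D 1 j k)
        simp only [neg_mul_neg]
        simp only [hD]
        rw [expand C i j hij', expand C i j hij']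
        obtain ⟨c, hc⟩ := hC.orth i j hij'
        exact ⟨c, by rw [hc]; ring⟩
  · rintro m n ⟨H, h1, h2⟩
    have hcard : Fintype.card (Fin n ⊕ Fin n) = 2 * n := by
      rw [Fintype.card_sum, Fintype.card_fin]; ring
    let K : Matrix (Fin n ⊕ Fin n) (Fin n ⊕ Fin n) ℤ := fun x y =>
      match x, y with
      | .inl i, .inl j => H i j
      | .inl i, .inr j => H i j
      | .inr i, .inl j => H i j
      | .inr i, .inr j => - H i j
    refine hasMod_of hcard K ?_ ?_
    · rintro (i | i) (j | j)
      · exact h1 i j
      · exact h1 i j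
      · exact h1 i j
      · change - H i j = 1 ∨ - H i j = -1
        rcases h1 i j with h | h
        · right; rw [h]
        · left; rw [h]; norm_num
    · rintro (i | i) (j | j) hij
      · have hij' : i ≠ j := fun h => hij (by rw [h])
        rw [Fintype.sum_sum_type]
        change 2 * m ∣ ∑ k, H i k * H j k + ∑ k, H i k * H j k
        obtain ⟨c, hc⟩ := h2 i j hij'
        exact ⟨c, by rw [hc]; ring⟩
      · rw [Fintype.sum_sum_type]
        change 2 * m ∣ ∑ k, H i k * H j k + ∑ k, H i k * (- H j k)
        have e1 : ∑ k, H i k * (- H j k) = - ∑ k, H i k * H j k := by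
          rw [← Finset.sum_neg_distrib]
          exact Finset.sum_congr rfl fun k _ => by ring
        rw [e1, add_neg_cancel]
        exact dvd_zero _
      · rw [Fintype.sum_sum_type]
        change 2 * m ∣ ∑ k, H i k * H j k + ∑ k, (- H i k) * H j k
        have e1 : ∑ k, (- H i k) * H j k = - ∑ k, H i k * H j k := by
          rw [← Finset.sum_neg_distrib]
          exact Finset.sum_congr rfl fun k _ => by ring
        rw [e1, add_neg_cancel]
        exact dvd_zero _
      · have hij' : i ≠ j := fun h => hij (by rw [h])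
        rw [Fintype.sum_sum_type]
        change 2 * m ∣ ∑ k, H i k * H j k + ∑ k, (- H i k) * (- H j k)
        simp only [neg_mul_neg]
        obtain ⟨c, hc⟩ := h2 i j hij'
        exact ⟨c, by rw [hc]; ring⟩

end Pool.Agent.W930.MH
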